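import Pool.Agent.W788.NW.Stm

/-! KIL: posterior bound for the noise at the sites which matter. -/

namespace Pool.Agent.W155.NW.Kil

open Finset Pool.Agent.W788.NV Pool.Agent.W788.NW

lemma sg_expand (h : MK) {S ι : Type} [Fintype S] [DecidableEq S] [Fintype ι] (r : ι → ℝ)
    (m : ι → S → S) (F : S → ℝ) (x : S) (t : ℝ) :
    sg r m t F x = ∑ y, F y * sg r m t (fun y' => if y' = y then 1 else 0) x := by
  have := h.lin S ι S r m F (fun y y' => if y' = y then 1 else 0) x t
  rw [← this]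
  have hF : F = fun y => ∑ k, F k * (if y = k then (1 : ℝ) else 0) := by
    funext y
    simp
  exact congrArg (fun H => sg r m t H x) hF

lemma sg_cont (h : MK) {S ι : Type} [Fintype S] [DecidableEq S] [Fintype ι] (r : ι → ℝ)
    (m : ι → S → S) (F : S → ℝ) (x : S) : Continuous (fun t => sg r m t F x) :=
  continuous_iff_continuousAt.mpr fun t => (h.deriv S ι r m F x t).continuousAt

/-- weighted number of the sites which matter -/
noncomputable def Fw {V : Type} [Fintype V] [DecidableEq V] {q : ℕ} (a : V → ℝ) (Φ : Mp V q) :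
    ℝ := ∑ u, if dep Φ u = ∅ then 0 else a u

lemma Fw_nonneg {V : Type} [Fintype V] [DecidableEq V] {q : ℕ} {a : V → ℝ} (ha : ∀ u, 0 ≤ a u)
    (Φ : Mp V q) : 0 ≤ Fw a Φ := by
  refine Finset.sum_nonneg fun u _ => ?_
  split_ifs
  · exact le_rfl
  · exact ha u

lemma Fw_noise (h3 : S_DR) {V : Type} [Fintype V] [DecidableEq V] {q : ℕ} {a : V → ℝ}
    (ha : ∀ u, 0 ≤ a u) (Φ : Mp V q) (v : V) (c : Fin q) :
    Fw a (fun x => Φ (Function.update x v c)) + (if dep Φ v = ∅ then 0 else a v) ≤ Fw a Φ := by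
  obtain ⟨h1, h2⟩ := (h3 V q Φ v).2.1 c
  unfold Fw
  rw [← Finset.add_sum_erase _ _ (Finset.mem_univ v),
    ← Finset.add_sum_erase (s := univ) (f := fun u => if dep Φ u = ∅ then 0 else a u) (a := v)
      (Finset.mem_univ v)]
  have e1 : (if dep (fun x => Φ (Function.update x v c)) v = ∅ then (0 : ℝ) else a v) = 0 :=
    if_pos h1
  rw [e1]
  have e2 : ∑ u ∈ univ.erase v,
      (if dep (fun x => Φ (Function.update x v c)) u = ∅ then (0 : ℝ) else a u) ≤
      ∑ u ∈ univ.erase v, (if dep Φ u = ∅ then (0 : ℝ) else a u) := by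
    refine Finset.sum_le_sum fun u _ => ?_
    by_cases hu : dep Φ u = ∅
    · have : dep (fun x => Φ (Function.update x v c)) u = ∅ :=
        Finset.subset_empty.mp (hu ▸ h2 u)
      rw [if_pos hu, if_pos this]
    · rw [if_neg hu]
      split_ifs
      · exact ha u
      · exact le_rfl
  linarith

lemma Fw_copy (h3 : S_DR) {V : Type} [Fintype V] [DecidableEq V] {q : ℕ} {a : V → ℝ}
    (ha : ∀ u, 0 ≤ a u) (Φ : Mp V q) (v w : V) (hvw : w ≠ v) (hd : dep Φ v ≠ ∅) :
    Fw a (fun x => Φ (Function.update x v (x w))) + a v ≤ Fw a Φ + a w := by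
  obtain ⟨h1, h2, h4⟩ := (h3 V q Φ v).2.2.1 w hvw
  unfold Fw
  rw [← Finset.add_sum_erase _ _ (Finset.mem_univ v),
    ← Finset.add_sum_erase (s := univ) (f := fun u => if dep Φ u = ∅ then 0 else a u) (a := v)
      (Finset.mem_univ v)]
  have hw : w ∈ univ.erase v := Finset.mem_erase.mpr ⟨hvw, Finset.mem_univ w⟩
  rw [← Finset.add_sum_erase _ _ hw,
    ← Finset.add_sum_erase (s := univ.erase v) (f := fun u => if dep Φ u = ∅ then 0 else a u)
      (a := w) hw]
  have e1 : (if dep (fun x => Φ (Function.update x v (x w))) v = ∅ then (0 : ℝ) else a v) = 0 :=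
    if_pos h1
  have e3 : (if dep Φ v = ∅ then (0 : ℝ) else a v) = a v := if_neg hd
  rw [e1, e3]
  have e4 : (if dep (fun x => Φ (Function.update x v (x w))) w = ∅ then (0 : ℝ) else a w) ≤
      a w := by
    split_ifs
    · exact ha w
    · exact le_rfl
  have e5 : 0 ≤ (if dep Φ w = ∅ then (0 : ℝ) else a w) := by
    split_ifs
    · exact le_rfl
    · exact ha w
  have e2 : ∑ u ∈ (univ.erase v).erase w,
      (if dep (fun x => Φ (Function.update x v (x w))) u = ∅ then (0 : ℝ) else a u) ≤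
      ∑ u ∈ (univ.erase v).erase w, (if dep Φ u = ∅ then (0 : ℝ) else a u) := by
    refine Finset.sum_le_sum fun u hu' => ?_
    have huw : u ≠ w := Finset.ne_of_mem_erase hu'
    by_cases hu : dep Φ u = ∅
    · have : dep (fun x => Φ (Function.update x v (x w))) u = ∅ :=
        Finset.subset_empty.mp (hu ▸ h4 u huw)
      rw [if_pos hu, if_pos this]
    · rw [if_neg hu]
      split_ifs
      · exact ha u
      · exact le_rfl
  linarith

lemma pointwise (h3 : S_DR) (h4 : S_POS) (h5 : S_TOT) {V : Type} [Fintype V] [DecidableEq V]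
    (G : SimpleGraph V) (q : ℕ) (θ : ℝ) (Δ : ℕ) (η S : ℝ) (ω : V → V → ℝ)
    (hy : HY G q θ Δ η S ω) (r : (V × Fin q) ⊕ (V × V) → ℝ)
    (hr1 : ∀ p, r (Sum.inl p) = θ / q)
    (hr2 : ∀ p, 0 ≤ r (Sum.inr p) ∧ r (Sum.inr p) ≤ mrate G q θ (Sum.inr p))
    (k : (V → Fin q) → ℝ) (z : V → Fin q) (hk : ∀ x, 0 ≤ k x) (v0 v : V) (Φ : Mp V q) :
    ∑ e, r e * ((Fw (fun u => (ω v0 u)⁻¹) (mR e Φ) - Fw (fun u => (ω v0 u)⁻¹) Φ) *
      hit k z (mR e Φ)) ≤
    -(θ / (2 * q) * (ω v0 v)⁻¹) *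
      (if dep Φ v = ∅ then 0 else ∑ c : Fin q, hit k z (mR (Sum.inl (v, c)) Φ)) := by
  set a : V → ℝ := fun u => (ω v0 u)⁻¹ with ha_def
  have hω : ∀ u, 0 < ω v0 u := fun u => lt_of_lt_of_le one_pos (hy.wt.one v0 u)
  have ha : ∀ u, 0 ≤ a u := fun u => inv_nonneg.mpr (hω u).le
  have hq : (0 : ℝ) < q := by
    have := hy.q2
    exact_mod_cast (by omega : 0 < q)
  have hθ := hy.t0
  have hη := hy.wt.eta
  set Y : V → ℝ := fun u => if dep Φ u = ∅ then 0 else
    ∑ c : Fin q, hit k z (mR (Sum.inl (u, c)) Φ) with hY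
  have hhit : ∀ Ψ : Mp V q, 0 ≤ hit k z Ψ := fun Ψ =>
    Finset.sum_nonneg fun x _ => by split_ifs; exacts [hk x, le_rfl]
  have hY0 : ∀ u, 0 ≤ Y u := by
    intro u
    simp only [hY]
    split_ifs
    · exact le_rfl
    · exact Finset.sum_nonneg fun c _ => hhit _
  -- noise moves
  have hinl : ∀ p : V × Fin q, r (Sum.inl p) * ((Fw a (mR (Sum.inl p) Φ) - Fw a Φ) *
      hit k z (mR (Sum.inl p) Φ)) ≤
      -(θ / q) * (a p.1 * (if dep Φ p.1 = ∅ then 0 else hit k z (mR (Sum.inl p) Φ))) := by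
    intro p
    have h1 := Fw_noise h3 ha Φ p.1 p.2
    have h2 : Fw a (mR (Sum.inl p) Φ) - Fw a Φ ≤ -(if dep Φ p.1 = ∅ then 0 else a p.1) := by
      change Fw a (fun x => Φ (Function.update x p.1 p.2)) - Fw a Φ ≤ _
      linarith
    rw [hr1 p]
    have h3' : (Fw a (mR (Sum.inl p) Φ) - Fw a Φ) * hit k z (mR (Sum.inl p) Φ) ≤
        -(if dep Φ p.1 = ∅ then 0 else a p.1) * hit k z (mR (Sum.inl p) Φ) :=
      mul_le_mul_of_nonneg_right h2 (hhit _)
    have h4' : (θ / q) * ((Fw a (mR (Sum.inl p) Φ) - Fw a Φ) * hit k z (mR (Sum.inl p) Φ)) ≤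
        (θ / q) * (-(if dep Φ p.1 = ∅ then 0 else a p.1) * hit k z (mR (Sum.inl p) Φ)) :=
      mul_le_mul_of_nonneg_left h3' (by positivity)
    refine h4'.trans (le_of_eq ?_)
    split_ifs
    · ring
    · ring
  have hinr : ∀ p : V × V, r (Sum.inr p) * ((Fw a (mR (Sum.inr p) Φ) - Fw a Φ) *
      hit k z (mR (Sum.inr p) Φ)) ≤
      η * (mrate G q θ (Sum.inr p) * (a p.1 * Y p.1)) := by
    intro p
    obtain ⟨v1, w⟩ := p
    have hm0 : 0 ≤ mrate G q θ (Sum.inr (v1, w)) := (hr2 (v1, w)).1.trans (hr2 (v1, w)).2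
    by_cases hadj : G.Adj v1 w
    · by_cases hd : dep Φ v1 = ∅
      · have hsame : mR (Sum.inr (v1, w)) Φ = Φ := by
          funext x
          exact (h3 V q Φ v1).1 hd x (x w)
        rw [hsame, sub_self, zero_mul, mul_zero]
        exact mul_nonneg hη (mul_nonneg hm0 (mul_nonneg (ha v1) (hY0 v1)))
      · have hne : w ≠ v1 := fun h => G.loopless.irrefl v1 (h ▸ hadj)
        have h1 := Fw_copy h3 ha Φ v1 w hne hd
        have h2 : Fw a (mR (Sum.inr (v1, w)) Φ) - Fw a Φ ≤ η * a v1 := by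
          change Fw a (fun x => Φ (Function.update x v1 (x w))) - Fw a Φ ≤ _
          have h6 : ω v0 v1 ≤ (1 + η) * ω v0 w := hy.wt.adj v0 w v1 hadj.symm
          have h7 : a w ≤ (1 + η) * a v1 := by
            simp only [ha_def]
            rw [inv_eq_one_div, inv_eq_one_div, mul_one_div, div_le_div_iff₀ (hω w) (hω v1)]
            linarith
          linarith
        have h8 : hit k z (mR (Sum.inr (v1, w)) Φ) ≤ Y v1 := by
          have := (h4 V q k z Φ v1 (fun x => x w) hk).2.1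
          simp only [hY]
          rw [if_neg hd]
          exact this
        calc r (Sum.inr (v1, w)) * ((Fw a (mR (Sum.inr (v1, w)) Φ) - Fw a Φ) *
              hit k z (mR (Sum.inr (v1, w)) Φ))
            ≤ r (Sum.inr (v1, w)) * ((η * a v1) * Y v1) := by
              refine mul_le_mul_of_nonneg_left ?_ (hr2 (v1, w)).1
              calc (Fw a (mR (Sum.inr (v1, w)) Φ) - Fw a Φ) * hit k z (mR (Sum.inr (v1, w)) Φ)
                  ≤ (η * a v1) * hit k z (mR (Sum.inr (v1, w)) Φ) :=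
                    mul_le_mul_of_nonneg_right h2 (hhit _)
                _ ≤ (η * a v1) * Y v1 :=
                    mul_le_mul_of_nonneg_left h8 (mul_nonneg hη (ha v1))
          _ ≤ mrate G q θ (Sum.inr (v1, w)) * ((η * a v1) * Y v1) :=
              mul_le_mul_of_nonneg_right (hr2 (v1, w)).2
                (mul_nonneg (mul_nonneg hη (ha v1)) (hY0 v1))
          _ = η * (mrate G q θ (Sum.inr (v1, w)) * (a v1 * Y v1)) := by ring
    · have hz : mrate G q θ (Sum.inr (v1, w)) = 0 := by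
        simp [mrate, hadj]
      have hrz : r (Sum.inr (v1, w)) = 0 :=
        le_antisymm (hz ▸ (hr2 (v1, w)).2) (hr2 (v1, w)).1
      rw [hrz, hz]
      simp
  have hT := (h5 V G q θ (by have := hy.q2; omega) hy.t0.le hy.t1.le hy.d1).2
    (fun u => a u * Y u)
  rw [Fintype.sum_sum_type] at hT
  have hT1 : ∑ p : V × Fin q, mrate G q θ (Sum.inl p) * (a (site (Sum.inl p : (V × Fin q) ⊕ (V × V))) *
      Y (site (Sum.inl p : (V × Fin q) ⊕ (V × V)))) = θ * ∑ u, a u * Y u := by
    change ∑ p : V × Fin q, (θ / q) * (a p.1 * Y p.1) = _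
    rw [Fintype.sum_prod_type, Finset.mul_sum]
    refine Finset.sum_congr rfl fun u _ => ?_
    simp only [Finset.sum_const, Finset.card_univ, Fintype.card_fin, nsmul_eq_mul]
    field_simp
  rw [hT1] at hT
  have hT2 : ∑ p : V × V, mrate G q θ (Sum.inr p) * (a p.1 * Y p.1) =
      (1 - θ) * ∑ u, a u * Y u := by
    have : ∑ p : V × V, mrate G q θ (Sum.inr p) * (a (site (Sum.inr p : (V × Fin q) ⊕ (V × V))) *
      Y (site (Sum.inr p : (V × Fin q) ⊕ (V × V)))) =
      ∑ p : V × V, mrate G q θ (Sum.inr p) * (a p.1 * Y p.1) := rfl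
    rw [this] at hT
    linarith
  have hsum0 : 0 ≤ ∑ u, a u * Y u := Finset.sum_nonneg fun u _ => mul_nonneg (ha u) (hY0 u)
  have hsum1 : a v * Y v ≤ ∑ u, a u * Y u :=
    Finset.single_le_sum (f := fun u => a u * Y u) (fun u _ => mul_nonneg (ha u) (hY0 u))
      (Finset.mem_univ v)
  rw [Fintype.sum_sum_type]
  have hA : ∑ p : V × Fin q, r (Sum.inl p) * ((Fw a (mR (Sum.inl p) Φ) - Fw a Φ) *
      hit k z (mR (Sum.inl p) Φ)) ≤ -(θ / q) * ∑ u, a u * Y u := by
    refine (Finset.sum_le_sum fun p _ => hinl p).trans (le_of_eq ?_)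
    rw [Fintype.sum_prod_type, Finset.mul_sum]
    refine Finset.sum_congr rfl fun u _ => ?_
    simp only [hY]
    by_cases hd : dep Φ u = ∅
    · simp [hd]
    · simp only [if_neg hd]
      rw [← Finset.mul_sum, ← Finset.mul_sum]
  have hB : ∑ p : V × V, r (Sum.inr p) * ((Fw a (mR (Sum.inr p) Φ) - Fw a Φ) *
      hit k z (mR (Sum.inr p) Φ)) ≤ η * ((1 - θ) * ∑ u, a u * Y u) := by
    refine (Finset.sum_le_sum fun p _ => hinr p).trans (le_of_eq ?_)
    rw [← Finset.mul_sum, hT2]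
  have het : η * (1 - θ) ≤ θ / (2 * q) := by
    rw [le_div_iff₀ (by positivity)]
    have := hy.et
    linarith
  have hfin : -(θ / q) * ∑ u, a u * Y u + η * ((1 - θ) * ∑ u, a u * Y u) ≤
      -(θ / (2 * q)) * ∑ u, a u * Y u := by
    have h9 : η * ((1 - θ) * ∑ u, a u * Y u) ≤ θ / (2 * q) * ∑ u, a u * Y u := by
      rw [← mul_assoc]
      exact mul_le_mul_of_nonneg_right het hsum0
    have h10 : θ / (q : ℝ) = θ / (2 * q) + θ / (2 * q) := by field_simp; ring
    rw [h10]
    nlinarith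
  have hlast : -(θ / (2 * q)) * ∑ u, a u * Y u ≤ -(θ / (2 * q)) * (a v * Y v) := by
    have hpos : 0 ≤ θ / (2 * (q : ℝ)) := by positivity
    nlinarith
  have hend : -(θ / (2 * q)) * (a v * Y v) = -(θ / (2 * q) * a v) * Y v := by ring
  calc _ ≤ -(θ / q) * ∑ u, a u * Y u + η * ((1 - θ) * ∑ u, a u * Y u) := add_le_add hA hB
    _ ≤ -(θ / (2 * q)) * ∑ u, a u * Y u := hfin
    _ ≤ -(θ / (2 * q)) * (a v * Y v) := hlast
    _ = _ := hend

theorem kil_ (h : MK) (h1 : S_LEIB) (h2 : S_EVG) (h3 : S_DR) (h4 : S_POS) (h5 : S_TOT) :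
    S_KIL := by
  intro V _ _ G q θ Δ η S ω hy r hr1 hr2 k z v0 v hk hadj
  have hq : (0 : ℝ) < q := by
    have := hy.q2
    exact_mod_cast (by omega : 0 < q)
  have hθ := hy.t0
  have hη := hy.wt.eta
  have hω : ∀ u, 0 < ω v0 u := fun u => lt_of_lt_of_le one_pos (hy.wt.one v0 u)
  have hr : ∀ e, 0 ≤ r e := by
    rintro (p | p)
    · rw [hr1 p]; positivity
    · exact (hr2 p).1
  set a : V → ℝ := fun u => (ω v0 u)⁻¹ with ha_def
  have ha : ∀ u, 0 < a u := fun u => inv_pos.mpr (hω u)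
  set X : ℝ → ℝ := fun τ => sg r (mR (V := V) (q := q)) τ
      (fun Φ => if dep Φ v = ∅ then 0 else
        ∑ c : Fin q, sg r (mR (V := V) (q := q)) (1 - τ) (hit k z) (mR (Sum.inl (v, c)) Φ)) id
    with hX
  -- continuity
  have hXc : Continuous X := by
    have : X = fun τ => ∑ Φ : Mp V q, (if dep Φ v = ∅ then 0 else
        ∑ c : Fin q, sg r (mR (V := V) (q := q)) (1 - τ) (hit k z) (mR (Sum.inl (v, c)) Φ)) *
        sg r (mR (V := V) (q := q)) τ (fun y' => if y' = Φ then 1 else 0) id := by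
      funext τ
      exact sg_expand h r _ _ _ _
    rw [this]
    refine continuous_finsetSum _ fun Φ _ => ?_
    refine Continuous.mul ?_ (sg_cont h r _ _ _)
    split_ifs
    · exact continuous_const
    · refine continuous_finsetSum _ fun c _ => ?_
      exact (sg_cont h r (mR (V := V) (q := q)) (hit k z) (mR (Sum.inl (v, c)) Φ)).comp
        (continuous_const.sub continuous_id)
  set g : ℝ → ℝ := fun τ => sg r (mR (V := V) (q := q)) τ
    (fun y => Fw a y * sg r (mR (V := V) (q := q)) (1 - τ) (hit k z) y) id with hg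
  have hgd : ∀ τ, HasDerivAt g (sg r (mR (V := V) (q := q)) τ (fun y => ∑ e, r e *
      ((Fw a (mR e y) - Fw a y) * sg r (mR (V := V) (q := q)) (1 - τ) (hit k z) (mR e y))) id) τ :=
    fun τ => h1 (Mp V q) ((V × Fin q) ⊕ (V × V)) r (mR (V := V) (q := q)) (Fw a) (hit k z) id 1 τ
  set C : ℝ := θ / (2 * q) * a v with hC
  have hCpos : 0 < C := mul_pos (by positivity) (ha v)
  have hDle : ∀ τ ∈ Set.Ico (0 : ℝ) 1, C * X τ ≤ -(sg r (mR (V := V) (q := q)) τ (fun y => ∑ e,
      r e * ((Fw a (mR e y) - Fw a y) *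
        sg r (mR (V := V) (q := q)) (1 - τ) (hit k z) (mR e y))) id) := by
    intro τ hτ
    obtain ⟨k', hk', hk'2⟩ := (h2 V q r (1 - τ)).2.2 k hr (by linarith [hτ.2]) hk
    have hb : sg r (mR (V := V) (q := q)) (1 - τ) (hit k z) = hit k' z := by
      funext Φ
      exact hk'2 z Φ
    have hXτ : -C * X τ = sg r (mR (V := V) (q := q)) τ
      (fun Φ => -C * (if dep Φ v = ∅ then 0 else
        ∑ c : Fin q, hit k' z (mR (Sum.inl (v, c)) Φ))) id := by
      have := h.lin (Mp V q) ((V × Fin q) ⊕ (V × V)) Unit r (mR (V := V) (q := q)) (fun _ => -C)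
        (fun _ Φ => if dep Φ v = ∅ then 0 else
        ∑ c : Fin q, hit k' z (mR (Sum.inl (v, c)) Φ)) id τ
      simp only [Finset.univ_unique, Finset.sum_singleton] at this
      rw [this, hX]
      simp only [hb]
    have hmono : sg r (mR (V := V) (q := q)) τ (fun y => ∑ e,
      r e * ((Fw a (mR e y) - Fw a y) *
        sg r (mR (V := V) (q := q)) (1 - τ) (hit k z) (mR e y))) id ≤ -C * X τ := by
      rw [hXτ, hb]
      refine h.mono _ _ r _ _ _ _ _ hr hτ.1 fun Φ => ?_
      have := pointwise h3 h4 h5 G q θ Δ η S ω hy r hr1 hr2 k' z hk' v0 v Φ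
      exact this
    linarith
  have hint : (∫ τ in (0 : ℝ)..1, C * X τ) ≤ (-g 1) - (-g 0) := by
    refine intervalIntegral.integral_le_sub_of_hasDeriv_right_of_le (g := fun τ => -g τ)
      (g' := fun τ => -(sg r (mR (V := V) (q := q)) τ (fun y => ∑ e,
      r e * ((Fw a (mR e y) - Fw a y) *
        sg r (mR (V := V) (q := q)) (1 - τ) (hit k z) (mR e y))) id)) zero_le_one ?_ ?_ ?_ ?_
    · exact (continuous_iff_continuousAt.mpr fun τ => (hgd τ).neg.continuousAt).continuousOn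
    · intro τ _
      exact (hgd τ).neg.hasDerivWithinAt
    · exact (continuous_const.mul hXc).continuousOn.integrableOn_Icc
    · intro τ hτ
      exact hDle τ (by
        first
          | exact hτ
          | exact ⟨hτ.1.le, hτ.2⟩)
  have hg1 : 0 ≤ g 1 := by
    have hz : sg r (mR (V := V) (q := q)) 1 (fun _ => (0 : ℝ)) id ≤ g 1 := by
      refine h.mono _ _ r _ _ _ _ _ hr zero_le_one fun Φ => ?_
      rw [sub_self, h.zero]
      refine mul_nonneg (Fw_nonneg (fun u => (ha u).le) Φ) ?_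
      exact Finset.sum_nonneg fun x _ => by split_ifs; exacts [hk x, le_rfl]
    rw [h.cst] at hz
    exact hz
  have hb1 : 0 ≤ sg r (mR (V := V) (q := q)) 1 (hit k z) id := by
    have hz : sg r (mR (V := V) (q := q)) 1 (fun _ => (0 : ℝ)) id ≤
        sg r (mR (V := V) (q := q)) 1 (hit k z) id := by
      refine h.mono _ _ r _ _ _ _ _ hr zero_le_one fun Φ => ?_
      exact Finset.sum_nonneg fun x _ => by split_ifs; exacts [hk x, le_rfl]
    rw [h.cst] at hz
    exact hz
  have hg0 : g 0 ≤ S * sg r (mR (V := V) (q := q)) 1 (hit k z) id := by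
    simp only [hg]
    rw [h.zero, sub_zero]
    refine mul_le_mul_of_nonneg_right ?_ hb1
    refine le_trans ?_ (hy.wt.sum v0)
    refine Finset.sum_le_sum fun u _ => ?_
    split_ifs
    · exact (ha u).le
    · exact le_rfl
  have hav : 1 ≤ (1 + η) * a v := by
    have h6 : ω v0 v ≤ (1 + η) * ω v0 v0 := hy.wt.adj v0 v0 v hadj
    rw [hy.wt.self, mul_one] at h6
    simp only [ha_def]
    rw [← div_eq_mul_inv, le_div_iff₀ (hω v)]
    linarith
  rw [intervalIntegral.integral_const_mul] at hint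
  have hI : C * (∫ τ in (0 : ℝ)..1, X τ) ≤ S * sg r (mR (V := V) (q := q)) 1 (hit k z) id := by
    linarith
  set B : ℝ := sg r (mR (V := V) (q := q)) 1 (hit k z) id with hB
  change (∫ τ in (0 : ℝ)..1, X τ) ≤ 2 * q / θ * (1 + η) * S * B
  have hS : 0 ≤ S := zero_le_one.trans hy.S1
  have hkey : S * B ≤ C * (2 * q / θ * (1 + η) * S * B) := by
    have : C * (2 * q / θ * (1 + η) * S * B) = ((1 + η) * a v) * (S * B) := by
      simp only [hC]
      field_simp
    rw [this]
    have hSB : 0 ≤ S * B := mul_nonneg hS hb1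
    nlinarith
  exact le_of_mul_le_mul_left (hI.trans hkey) hCpos

end Pool.Agent.W155.NW.Kil

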